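import Mathlib

set_option autoImplicit false

/-!
# Mixed edge deletions in majority C-edge-critical graphs

We exhibit an mc-edge-critical graph `G` (with 23 vertices and 29 edges) in which the deletion of
some edges decreases the majority C-chromatic number and the deletion of the others increases it.

The graph: a triangle `0 1 2`, a 7-cycle `3 4 5 6 7 8 9`, the six edges joining `0` to `3, 4`,
`1` to `5, 6` and `2` to `7, 8`, two leaves at each of `3, ..., 8` and one leaf at `9`.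
-/

namespace Pool.Agent.Results.MP_232fda_co.MixedCritical

/-- `c` is a majority C-colouring of `G` with `k` classes: the classes are nonempty and every
vertex has at least half of its neighbours in its own class. -/
def IsMajorityColouring {V : Type} (G : SimpleGraph V) {k : ℕ} (c : V → Fin k) : Prop :=
  Function.Surjective c ∧
    ∀ v, (G.neighborSet v).ncard ≤ 2 * {w | w ∈ G.neighborSet v ∧ c w = c v}.ncard

/-- The majority C-chromatic number: the largest number of classes of a majority C-colouring. -/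
noncomputable def mc {V : Type} (G : SimpleGraph V) : ℕ :=
  sSup {k : ℕ | ∃ c : V → Fin k, IsMajorityColouring G c}

/-- A graph with at least one edge is mc-edge-critical if the deletion of any edge changes `mc`. -/
def IsCritical {V : Type} (G : SimpleGraph V) : Prop :=
  G.edgeSet.Nonempty ∧ ∀ e ∈ G.edgeSet, mc (G.deleteEdges {e}) ≠ mc G

/-- The neighbours of the vertices of the example. -/
def nb : Fin 23 → Finset (Fin 23) :=
  ![{1, 2, 3, 4},
    {0, 2, 5, 6},
    {0, 1, 7, 8},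
    {0, 4, 9, 10, 11},
    {0, 3, 5, 12, 13},
    {1, 4, 6, 14, 15},
    {1, 5, 7, 16, 17},
    {2, 6, 8, 18, 19},
    {2, 7, 9, 20, 21},
    {3, 8, 22},
    {3},
    {3},
    {4},
    {4},
    {5},
    {5},
    {6},
    {6},
    {7},
    {7},
    {8},
    {8},
    {9}]

/-- The example. -/
def G : SimpleGraph (Fin 23) where
  Adj a b := b ∈ nb a
  symm := ⟨by decide +kernel⟩
  loopless := ⟨by decide +kernel⟩

/-- The neighbours in the graph obtained from the example by deleting the edge `ab`. -/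
def nbd (a b v : Fin 23) : Finset (Fin 23) :=
  if v = a then (nb v).erase b else if v = b then (nb v).erase a else nb v

theorem nbd_adj (a b : Fin 23) (v w : Fin 23) :
    (G.deleteEdges {s(a, b)}).Adj v w ↔ w ∈ nbd a b v := by
  rw [SimpleGraph.deleteEdges_adj, Set.mem_singleton_iff, Sym2.eq_iff]
  change (w ∈ nb v ∧ _) ↔ _
  unfold nbd
  split_ifs with h1 h2
  · subst h1
    rw [Finset.mem_erase]
    constructor
    · rintro ⟨h3, h4⟩
      exact ⟨fun h => h4 (Or.inl ⟨rfl, h⟩), h3⟩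
    · rintro ⟨h3, h4⟩
      refine ⟨h4, ?_⟩
      rintro (⟨-, h5⟩ | ⟨h5, h6⟩)
      · exact h3 h5
      · exact h3 (h6.trans h5)
  · subst h2
    rw [Finset.mem_erase]
    constructor
    · rintro ⟨h3, h4⟩
      exact ⟨fun h => h4 (Or.inr ⟨rfl, h⟩), h3⟩
    · rintro ⟨h3, h4⟩
      refine ⟨h4, ?_⟩
      rintro (⟨h5, -⟩ | ⟨-, h6⟩)
      · exact h1 h5
      · exact h3 h6
  · constructor
    · exact fun h => h.1
    · intro h
      refine ⟨h, ?_⟩
      rintro (⟨h3, -⟩ | ⟨h3, -⟩)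
      · exact h1 h3
      · exact h2 h3

theorem majority_iff {k : ℕ} (H : SimpleGraph (Fin 23)) (N : Fin 23 → Finset (Fin 23))
    (hN : ∀ v w, H.Adj v w ↔ w ∈ N v) (c : Fin 23 → Fin k) :
    IsMajorityColouring H c ↔ (Function.Surjective c ∧
      ∀ v, (N v).card ≤ 2 * ((N v).filter fun w => c w = c v).card) := by
  have h1 : ∀ v, (H.neighborSet v).ncard = (N v).card := by
    intro v
    rw [← Set.ncard_coe_finset]
    congr 1
    ext w
    exact hN v w
  have h2 : ∀ v, {w | w ∈ H.neighborSet v ∧ c w = c v}.ncard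
      = ((N v).filter fun w => c w = c v).card := by
    intro v
    rw [← Set.ncard_coe_finset]
    congr 1
    ext w
    rw [Finset.coe_filter]
    exact and_congr_left fun _ => hN v w
  unfold IsMajorityColouring
  simp only [h1, h2]

theorem bdd {k : ℕ} {H : SimpleGraph (Fin 23)} {c : Fin 23 → Fin k}
    (h : IsMajorityColouring H c) : k ≤ 23 := by
  simpa using Fintype.card_le_of_surjective c h.1

theorem mc_le (H : SimpleGraph (Fin 23)) (m : ℕ)
    (h : ∀ (k : ℕ) (c : Fin 23 → Fin k), IsMajorityColouring H c → k ≤ m) : mc H ≤ m := by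
  refine csSup_le' ?_
  rintro k ⟨c, hc⟩
  exact h k c hc

theorem le_mc (H : SimpleGraph (Fin 23)) (m : ℕ) (c : Fin 23 → Fin m)
    (h : IsMajorityColouring H c) : m ≤ mc H := by
  refine le_csSup ⟨23, ?_⟩ ⟨c, h⟩
  rintro k ⟨c, hc⟩
  exact bdd hc

/-- A majority C-colouring of `G` with four classes. -/
def base : Fin 23 → Fin 5 :=
  ![0, 0, 0, 1, 1, 2, 2, 3, 3, 3, 1, 1, 1, 1, 2, 2, 2, 2, 3, 3, 3, 3, 3]

/-- For a vertex `x` of the 7-cycle, a colouring with five classes in which `x` and its leaves form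
a class. -/
def colx (x : ℕ) : Fin 23 → Fin 5 :=
  (![![0, 0, 0, 1, 2, 2, 3, 3, 4, 4, 1, 1, 2, 2, 2, 2, 3, 3, 3, 3, 4, 4, 4],
    ![0, 0, 0, 4, 1, 2, 2, 3, 3, 4, 4, 4, 1, 1, 2, 2, 2, 2, 3, 3, 3, 3, 4],
    ![0, 0, 0, 4, 4, 1, 2, 2, 3, 3, 4, 4, 4, 4, 1, 1, 2, 2, 2, 2, 3, 3, 3],
    ![0, 0, 0, 3, 4, 4, 1, 2, 2, 3, 3, 3, 4, 4, 4, 4, 1, 1, 2, 2, 2, 2, 3],
    ![0, 0, 0, 3, 3, 4, 4, 1, 2, 2, 3, 3, 3, 3, 4, 4, 4, 4, 1, 1, 2, 2, 2],
    ![0, 0, 0, 2, 3, 3, 4, 4, 1, 2, 2, 2, 3, 3, 3, 3, 4, 4, 4, 4, 1, 1, 2],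
    ![0, 0, 0, 2, 2, 3, 3, 4, 4, 1, 2, 2, 2, 2, 3, 3, 3, 3, 4, 4, 4, 4, 1]] : Fin 7 → Fin 23 → Fin 5) (Fin.ofNat 7 (x - 3))

/-- A majority C-colouring with five classes of `G - ab`. -/
def col (a b : Fin 23) : Fin 23 → Fin 5 :=
  if 10 ≤ b.val then Function.update base b 4
  else if 10 ≤ a.val then Function.update base a 4
  else if 3 ≤ a.val then colx a.val else colx b.val

theorem col_ok : ∀ a b : Fin 23, b ∈ nb a → (3 ≤ a.val ∨ 3 ≤ b.val) →
    (∀ i : Fin 5, ∃ v, col a b v = i) ∧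
      ∀ v, (nbd a b v).card ≤ 2 * ((nbd a b v).filter fun w => col a b w = col a b v).card := by
  decide +kernel

/-- The triangle and the 7-cycle. -/
def core : Finset (Fin 23) := {0, 1, 2, 3, 4, 5, 6, 7, 8, 9}

/-- The 7-cycle. -/
def cyc : Finset (Fin 23) := {3, 4, 5, 6, 7, 8, 9}

/-- The condition on the trace of a class on `core` implied by the majority condition. -/
def Good (N : Fin 23 → Finset (Fin 23)) (S : Finset (Fin 23)) : Prop :=
  ∀ v ∈ S, (N v).card ≤ 2 * ((N v \ core).card + (N v ∩ S).card)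

instance (N : Fin 23 → Finset (Fin 23)) (S : Finset (Fin 23)) : Decidable (Good N S) := by
  unfold Good
  infer_instance

/-- The condition of being good in terms of the neighbours in the core: the vertices of the
triangle need two neighbours in `S`, the vertices of the 7-cycle need one. -/
def Good' (cn : Fin 23 → Finset (Fin 23)) (S : Finset (Fin 23)) : Prop :=
  ∀ v ∈ S, (if v.val < 3 then 2 else 1) ≤ (cn v ∩ S).card

instance (cn : Fin 23 → Finset (Fin 23)) (S : Finset (Fin 23)) : Decidable (Good' cn S) := by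
  unfold Good'
  infer_instance

theorem good_good' {N cn : Fin 23 → Finset (Fin 23)}
    (h : ∀ v ∈ core, N v ∩ core = cn v ∧
      (if v.val < 3 then 4 else 2) + 2 * (N v \ core).card ≤ (N v).card + 1)
    {S : Finset (Fin 23)} (hS : S ⊆ core) (hg : Good N S) : Good' cn S := by
  intro v hv
  have h1 := hg v hv
  obtain ⟨h2, h3⟩ := h v (hS hv)
  have h4 : N v ∩ S = cn v ∩ S := by
    rw [← h2, Finset.inter_assoc, Finset.inter_eq_right.2 hS]
  rw [h4] at h1
  split_ifs at h3 ⊢ <;> omega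

/-- The neighbours in the core in `G`. -/
def cn0 : Fin 23 → Finset (Fin 23) :=
  ![{1, 2, 3, 4}, {0, 2, 5, 6}, {0, 1, 7, 8}, {4, 9, 0}, {3, 5, 0}, {4, 6, 1}, {5, 7, 1}, {6, 8, 2}, {7, 9, 2}, {8, 3}, ∅, ∅, ∅, ∅, ∅, ∅, ∅, ∅, ∅, ∅, ∅, ∅, ∅]

/-- The neighbours in the core in `G - 01`. -/
def cn1 : Fin 23 → Finset (Fin 23) :=
  ![{2, 3, 4}, {2, 5, 6}, {0, 1, 7, 8}, {4, 9, 0}, {3, 5, 0}, {4, 6, 1}, {5, 7, 1}, {6, 8, 2}, {7, 9, 2}, {8, 3}, ∅, ∅, ∅, ∅, ∅, ∅, ∅, ∅, ∅, ∅, ∅, ∅, ∅]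

/-- The neighbours in the core in `G - 02`. -/
def cn2 : Fin 23 → Finset (Fin 23) :=
  ![{1, 3, 4}, {0, 2, 5, 6}, {1, 7, 8}, {4, 9, 0}, {3, 5, 0}, {4, 6, 1}, {5, 7, 1}, {6, 8, 2}, {7, 9, 2}, {8, 3}, ∅, ∅, ∅, ∅, ∅, ∅, ∅, ∅, ∅, ∅, ∅, ∅, ∅]

/-- The neighbours in the core in `G - 12`. -/
def cn3 : Fin 23 → Finset (Fin 23) :=
  ![{1, 2, 3, 4}, {0, 5, 6}, {0, 7, 8}, {4, 9, 0}, {3, 5, 0}, {4, 6, 1}, {5, 7, 1}, {6, 8, 2}, {7, 9, 2}, {8, 3}, ∅, ∅, ∅, ∅, ∅, ∅, ∅, ∅, ∅, ∅, ∅, ∅, ∅]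

theorem pre0 : ∀ v ∈ core, nb v ∩ core = cn0 v ∧
    (if v.val < 3 then 4 else 2) + 2 * (nb v \ core).card ≤ (nb v).card + 1 := by
  decide +kernel

theorem pre1 : ∀ v ∈ core, nbd 0 1 v ∩ core = cn1 v ∧
    (if v.val < 3 then 4 else 2) + 2 * (nbd 0 1 v \ core).card ≤ (nbd 0 1 v).card + 1 := by
  decide +kernel

theorem pre2 : ∀ v ∈ core, nbd 0 2 v ∩ core = cn2 v ∧
    (if v.val < 3 then 4 else 2) + 2 * (nbd 0 2 v \ core).card ≤ (nbd 0 2 v).card + 1 := by
  decide +kernel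

theorem pre3 : ∀ v ∈ core, nbd 1 2 v ∩ core = cn3 v ∧
    (if v.val < 3 then 4 else 2) + 2 * (nbd 1 2 v \ core).card ≤ (nbd 1 2 v).card + 1 := by
  decide +kernel

/-- The triangle. -/
def tri : Finset (Fin 23) := {0, 1, 2}

theorem tri_cases : ∀ T ∈ tri.powerset, T = ∅ ∨ T = {0} ∨ T = {1} ∨ T = {2} ∨ T = {0, 1} ∨
    T = {0, 2} ∨ T = {1, 2} ∨ T = {0, 1, 2} := by
  intro T hT
  have h : ∀ x, x ∈ T → x = 0 ∨ x = 1 ∨ x = 2 := by
    intro x hx
    have := Finset.mem_powerset.1 hT hx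
    simpa [tri] using this
  have key : ∀ U : Finset (Fin 23), (∀ x, x ∈ U → x = 0 ∨ x = 1 ∨ x = 2) →
      (0 ∈ T ↔ 0 ∈ U) → (1 ∈ T ↔ 1 ∈ U) → (2 ∈ T ↔ 2 ∈ U) → T = U := by
    intro U hU h0 h1 h2
    ext x
    constructor
    · intro hx
      rcases h x hx with rfl | rfl | rfl
      · exact h0.1 hx
      · exact h1.1 hx
      · exact h2.1 hx
    · intro hx
      rcases hU x hx with rfl | rfl | rfl
      · exact h0.2 hx
      · exact h1.2 hx
      · exact h2.2 hx
  by_cases h0 : (0 : Fin 23) ∈ T <;> by_cases h1 : (1 : Fin 23) ∈ T <;>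
    by_cases h2 : (2 : Fin 23) ∈ T
  · refine Or.inr (Or.inr (Or.inr (Or.inr (Or.inr (Or.inr (Or.inr (key _ ?_ ?_ ?_ ?_))))))) <;>
      simp [h0, h1, h2]
  · refine Or.inr (Or.inr (Or.inr (Or.inr (Or.inl (key _ ?_ ?_ ?_ ?_))))) <;> simp [h0, h1, h2]
  · refine Or.inr (Or.inr (Or.inr (Or.inr (Or.inr (Or.inl (key _ ?_ ?_ ?_ ?_)))))) <;>
      simp [h0, h1, h2]
  · refine Or.inr (Or.inl (key _ ?_ ?_ ?_ ?_)) <;> simp [h0, h1, h2]
  · refine Or.inr (Or.inr (Or.inr (Or.inr (Or.inr (Or.inr (Or.inl (key _ ?_ ?_ ?_ ?_))))))) <;>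
      simp [h0, h1, h2]
  · refine Or.inr (Or.inr (Or.inl (key _ ?_ ?_ ?_ ?_))) <;> simp [h0, h1, h2]
  · refine Or.inr (Or.inr (Or.inr (Or.inl (key _ ?_ ?_ ?_ ?_)))) <;> simp [h0, h1, h2]
  · refine Or.inl (key _ ?_ ?_ ?_ ?_) <;> simp [h0, h1, h2]

theorem key0 : ∀ T ∈ tri.powerset, 0 ∉ T →
    (T.Nonempty → ¬ Good' cn0 T) ∧ ∀ x ∈ cyc, ¬ Good' cn0 (insert x T) := by
  intro T hT h0
  rcases tri_cases T hT with rfl | rfl | rfl | rfl | rfl | rfl | rfl | rfl
  · exact ⟨by decide +kernel, by decide +kernel⟩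
  · exact absurd (by decide +kernel) h0
  · exact ⟨by decide +kernel, by decide +kernel⟩
  · exact ⟨by decide +kernel, by decide +kernel⟩
  · exact absurd (by decide +kernel) h0
  · exact absurd (by decide +kernel) h0
  · exact ⟨by decide +kernel, by decide +kernel⟩
  · exact absurd (by decide +kernel) h0

theorem key1 : ∀ T ∈ tri.powerset,
    (T.Nonempty → ¬ Good' cn1 T) ∧ ∀ x ∈ cyc, ¬ Good' cn1 (insert x T) := by
  intro T hT
  rcases tri_cases T hT with rfl | rfl | rfl | rfl | rfl | rfl | rfl | rfl <;>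
    exact ⟨by decide +kernel, by decide +kernel⟩

theorem key2 : ∀ T ∈ tri.powerset,
    (T.Nonempty → ¬ Good' cn2 T) ∧ ∀ x ∈ cyc, ¬ Good' cn2 (insert x T) := by
  intro T hT
  rcases tri_cases T hT with rfl | rfl | rfl | rfl | rfl | rfl | rfl | rfl <;>
    exact ⟨by decide +kernel, by decide +kernel⟩

theorem key3 : ∀ T ∈ tri.powerset,
    (T.Nonempty → ¬ Good' cn3 T) ∧ ∀ x ∈ cyc, ¬ Good' cn3 (insert x T) := by
  intro T hT
  rcases tri_cases T hT with rfl | rfl | rfl | rfl | rfl | rfl | rfl | rfl <;>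
    exact ⟨by decide +kernel, by decide +kernel⟩

theorem core_eq : core = tri ∪ cyc := by decide +kernel

/-- If every nonempty good set meets the 7-cycle in two vertices, and the colour `i` occurs on the
core, then `i` occurs at least twice on the 7-cycle. -/
theorem two_le (cn : Fin 23 → Finset (Fin 23)) (P : Finset (Fin 23) → Prop)
    (hP : ∀ S, P S → P (S ∩ tri))
    (key : ∀ T ∈ tri.powerset, P T →
      (T.Nonempty → ¬ Good' cn T) ∧ ∀ x ∈ cyc, ¬ Good' cn (insert x T))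
    (S : Finset (Fin 23)) (hS : S ⊆ core) (hne : S.Nonempty) (hPS : P S) (hg : Good' cn S) :
    2 ≤ (S ∩ cyc).card := by
  by_contra hlt
  have hlt' : (S ∩ cyc).card ≤ 1 := by omega
  have hk := key (S ∩ tri) (Finset.mem_powerset.2 Finset.inter_subset_right) (hP S hPS)
  have hU : S ∩ tri ∪ S ∩ cyc = S := by
    rw [← Finset.inter_union_distrib_left, ← core_eq]
    exact Finset.inter_eq_left.2 hS
  rcases Finset.card_le_one_iff_subset_singleton.1 hlt' with ⟨x, hx⟩
  rcases Finset.subset_singleton_iff.1 hx with h0 | h1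
  · rw [h0, Finset.union_empty] at hU
    rw [hU] at hk
    exact hk.1 hne hg
  · have hxc : x ∈ cyc := by
      have : x ∈ S ∩ cyc := by rw [h1]; exact Finset.mem_singleton_self x
      exact (Finset.mem_inter.1 this).2
    refine hk.2 x hxc ?_
    rw [Finset.insert_eq, Finset.union_comm, ← h1, hU]
    exact hg

/-- The neighbour of a leaf. -/
def par : Fin 23 → Fin 23 :=
  ![0, 1, 2, 3, 4, 5, 6, 7, 8, 9, 3, 3, 4, 4, 5, 5, 6, 6, 7, 7, 8, 8, 9]

theorem par_core : ∀ v, par v ∈ core := by decide +kernel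

/-- The conditions on the neighbour function of a spanning subgraph used below. -/
def Leafy (N : Fin 23 → Finset (Fin 23)) : Prop := ∀ v, v ∉ core → N v = {par v}

instance (N : Fin 23 → Finset (Fin 23)) : Decidable (Leafy N) := by
  unfold Leafy
  infer_instance

theorem leafy0 : Leafy nb := by decide +kernel

theorem leafy1 : Leafy (nbd 0 1) := by decide +kernel

theorem leafy2 : Leafy (nbd 0 2) := by decide +kernel

theorem leafy3 : Leafy (nbd 1 2) := by decide +kernel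

theorem par_self : ∀ v ∈ core, par v = v := by decide +kernel

/-- The trace on the core of the class of colour `i`. -/
def trace {k : ℕ} (c : Fin 23 → Fin k) (i : Fin k) : Finset (Fin 23) :=
  core.filter fun v => c v = i

theorem trace_nonempty {k : ℕ} {N : Fin 23 → Finset (Fin 23)} (hL : Leafy N) {c : Fin 23 → Fin k}
    (hs : Function.Surjective c)
    (hm : ∀ v, (N v).card ≤ 2 * ((N v).filter fun w => c w = c v).card) (i : Fin k) :
    (trace c i).Nonempty := by
  obtain ⟨v, hv⟩ := hs i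
  refine ⟨par v, Finset.mem_filter.2 ⟨par_core v, ?_⟩⟩
  by_cases h : v ∈ core
  · rw [par_self v h]
    exact hv
  · have h1 := hm v
    rw [hL v h, Finset.card_singleton] at h1
    by_contra h2
    rw [Finset.filter_singleton, if_neg (by rw [hv]; exact h2)] at h1
    simp at h1

theorem trace_good {k : ℕ} {N : Fin 23 → Finset (Fin 23)} {c : Fin 23 → Fin k}
    (hm : ∀ v, (N v).card ≤ 2 * ((N v).filter fun w => c w = c v).card) (i : Fin k) :
    Good N (trace c i) := by
  intro v hv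
  have hvi := (Finset.mem_filter.1 hv).2
  refine (hm v).trans (Nat.mul_le_mul_left 2 ?_)
  have hsub : ((N v).filter fun w => c w = c v) ⊆ (N v \ core) ∪ (N v ∩ trace c i) := by
    intro w hw
    rw [Finset.mem_filter] at hw
    by_cases hc : w ∈ core
    · refine Finset.mem_union_right _ (Finset.mem_inter.2 ⟨hw.1, ?_⟩)
      exact Finset.mem_filter.2 ⟨hc, hw.2.trans hvi⟩
    · exact Finset.mem_union_left _ (Finset.mem_sdiff.2 ⟨hw.1, hc⟩)
  exact (Finset.card_le_card hsub).trans (Finset.card_union_le _ _)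

theorem count {k : ℕ} (c : Fin 23 → Fin k) (E : Finset (Fin k))
    (h : ∀ i, i ∉ E → 2 ≤ (trace c i ∩ cyc).card) : 2 * k ≤ 7 + 2 * E.card := by
  have h1 : cyc.card = ∑ i : Fin k, (cyc.filter fun v => c v = i).card :=
    Finset.card_eq_sum_card_fiberwise fun v _ => Finset.mem_coe.2 (Finset.mem_univ _)
  have h2 : ∀ i, trace c i ∩ cyc = cyc.filter fun v => c v = i := by
    intro i
    ext v
    rw [Finset.mem_inter, trace, Finset.mem_filter, Finset.mem_filter, core_eq,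
      Finset.mem_union]
    tauto
  have h3 : ∑ i ∈ Eᶜ, 2 ≤ ∑ i ∈ Eᶜ, (cyc.filter fun v => c v = i).card :=
    Finset.sum_le_sum fun i hi => by
      rw [← h2]
      exact h i (Finset.mem_compl.1 hi)
  have h4 : ∑ i ∈ Eᶜ, (cyc.filter fun v => c v = i).card
      ≤ ∑ i : Fin k, (cyc.filter fun v => c v = i).card :=
    Finset.sum_le_sum_of_subset (Finset.subset_univ _)
  rw [Finset.sum_const, smul_eq_mul, Finset.card_compl, Fintype.card_fin] at h3
  have h5 : cyc.card = 7 := by decide +kernel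
  have h6 : E.card ≤ k := by simpa using Finset.card_le_univ E
  omega

theorem upper0 : mc G ≤ 4 := by
  refine mc_le G 4 fun k c hc => ?_
  rw [majority_iff G nb (fun v w => Iff.rfl)] at hc
  have h := count c {c 0} fun i hi => two_le cn0 (fun S => 0 ∉ S)
    (fun S hS h => hS (Finset.mem_inter.1 h).1) key0 (trace c i)
    (Finset.filter_subset _ _) (trace_nonempty leafy0 hc.1 hc.2 i)
    (fun h => hi (Finset.mem_singleton.2 (Finset.mem_filter.1 h).2.symm))
    (good_good' pre0 (Finset.filter_subset _ _) (trace_good hc.2 i))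
  rw [Finset.card_singleton] at h
  omega

theorem upper (a b : Fin 23) (cn : Fin 23 → Finset (Fin 23)) (hL : Leafy (nbd a b))
    (pre : ∀ v ∈ core, nbd a b v ∩ core = cn v ∧
      (if v.val < 3 then 4 else 2) + 2 * (nbd a b v \ core).card ≤ (nbd a b v).card + 1)
    (key : ∀ T ∈ tri.powerset,
      (T.Nonempty → ¬ Good' cn T) ∧ ∀ x ∈ cyc, ¬ Good' cn (insert x T)) :
    mc (G.deleteEdges {s(a, b)}) ≤ 3 := by
  refine mc_le _ 3 fun k c hc => ?_
  rw [majority_iff _ (nbd a b) (nbd_adj a b)] at hc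
  have h := count c ∅ fun i _ => two_le cn (fun _ => True)
    (fun _ _ => trivial) (fun T hT _ => key T hT) (trace c i)
    (Finset.filter_subset _ _) (trace_nonempty hL hc.1 hc.2 i) trivial
    (good_good' pre (Finset.filter_subset _ _) (trace_good hc.2 i))
  rw [Finset.card_empty] at h
  omega

/-- A majority C-colouring of `G` with four classes. -/
def base4 : Fin 23 → Fin 4 :=
  ![0, 0, 0, 1, 1, 2, 2, 3, 3, 3, 1, 1, 1, 1, 2, 2, 2, 2, 3, 3, 3, 3, 3]

theorem mc_G : mc G = 4 := by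
  refine le_antisymm upper0 (le_mc G 4 base4 ?_)
  rw [majority_iff G nb (fun v w => Iff.rfl)]
  exact ⟨by decide +kernel, by decide +kernel⟩

theorem lower (a b : Fin 23) (hab : b ∈ nb a) (h : 3 ≤ a.val ∨ 3 ≤ b.val) :
    5 ≤ mc (G.deleteEdges {s(a, b)}) := by
  refine le_mc _ 5 (col a b) ?_
  rw [majority_iff _ (nbd a b) (nbd_adj a b)]
  exact col_ok a b hab h

theorem tri_edge : ∀ a b : Fin 23, b ∈ nb a → a.val < 3 → b.val < 3 →
    (a = 0 ∧ b = 1) ∨ (a = 1 ∧ b = 0) ∨ (a = 0 ∧ b = 2) ∨ (a = 2 ∧ b = 0) ∨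
      (a = 1 ∧ b = 2) ∨ (a = 2 ∧ b = 1) := by
  decide +kernel

theorem critical : IsCritical G := by
  have h01 : G.Adj 0 1 := by
    change (1 : Fin 23) ∈ nb 0
    decide +kernel
  refine ⟨⟨s(0, 1), h01⟩, ?_⟩
  intro e he
  induction e using Sym2.ind with
  | _ a b =>
    have hab : b ∈ nb a := he
    rw [mc_G]
    by_cases h : 3 ≤ a.val ∨ 3 ≤ b.val
    · have := lower a b hab h
      omega
    · rw [not_or, not_le, not_le] at h
      have h3 : mc (G.deleteEdges {s(a, b)}) ≤ 3 := by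
        rcases tri_edge a b hab h.1 h.2 with h | h | h | h | h | h
        · rw [h.1, h.2]
          exact upper 0 1 cn1 leafy1 pre1 key1
        · rw [h.1, h.2, Sym2.eq_swap]
          exact upper 0 1 cn1 leafy1 pre1 key1
        · rw [h.1, h.2]
          exact upper 0 2 cn2 leafy2 pre2 key2
        · rw [h.1, h.2, Sym2.eq_swap]
          exact upper 0 2 cn2 leafy2 pre2 key2
        · rw [h.1, h.2]
          exact upper 1 2 cn3 leafy3 pre3 key3
        · rw [h.1, h.2, Sym2.eq_swap]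
          exact upper 1 2 cn3 leafy3 pre3 key3
      omega

/-- There is an mc-edge-critical graph `G` with at least two edges that has edges `e`, `f` with
`mc (G - e) < mc G < mc (G - f)`. -/
theorem result : ∃ (n : ℕ) (G : SimpleGraph (Fin n)), IsCritical G ∧ 2 ≤ G.edgeSet.ncard ∧
    ∃ e ∈ G.edgeSet, ∃ f ∈ G.edgeSet,
      mc (G.deleteEdges {e}) < mc G ∧ mc G < mc (G.deleteEdges {f}) := by
  have h01 : G.Adj 0 1 := by
    change (1 : Fin 23) ∈ nb 0
    decide +kernel
  have h03 : G.Adj 0 3 := by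
    change (3 : Fin 23) ∈ nb 0
    decide +kernel
  refine ⟨23, G, critical, ?_, s(0, 1), h01, s(0, 3), h03, ?_, ?_⟩
  · have hsub : ({s(0, 1), s(0, 3)} : Set (Sym2 (Fin 23))) ⊆ G.edgeSet := by
      rintro e (rfl | rfl)
      · exact h01
      · exact h03
    have hne : (s(0, 1) : Sym2 (Fin 23)) ≠ s(0, 3) := by decide
    rw [← Set.ncard_pair hne]
    exact Set.ncard_le_ncard hsub (Set.toFinite _)
  · have := upper 0 1 cn1 leafy1 pre1 key1
    rw [mc_G]
    omega
  · have := lower 0 3 h03 (Or.inr (by decide))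
    rw [mc_G]
    omega

end Pool.Agent.Results.MP_232fda_co.MixedCritical
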